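import Mathlib

set_option autoImplicit false

namespace Pool.Agent.H.MP_c7d842_co
open Finset

def g (v : ℕ) : ℕ := (11243770465263757767812556647413536010632488347900289808495319757751736993433551220106268635286981129693340500875653517965693432437888469464835677449380717390818573361466131388080324557838461663304405483146337229258450773588931981919005488722518978600789498386370666288526781170685571475214740119006816429718379927126724639702838246385049801111843193099208555171804148197319465576236463593057232832234659561908477301625140051068237685312832078820256178712731044383197030298988065430940300204892121874936051232855635933897468936997339137 >>> (14 * v)) % 16384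

def rw' (i : ℕ) : ℕ := (2091761009078400631490846954170099612067711665880878749841748457109638050139306996883201602458494961201610262475882381240903329635644847067738436687929855268353110424646793220887534222341553275140905844912201158006210141168044367340614243405145726116711717822518751361343862868065736196579188665334305670221588916826982019809312776107209092916964502924477944097297095126803252211138658961808987858693061802873237151900264572903823855687330852608262658574612409118883009386113224746713557539747659903402516168916709785107405203258481340346229436713281331814993470367721259388507256705894608215618210885975292496253167115405649787059099076635778758476576745005095274194225573513267683398932056531214641464002146983456876630814193472791646577666139747058692728000790959032678442428406027069310689602131963761231154928309300342955017564218062005931754244032074791331458284607970443490310813360440856182032166883913494936625162357961117201520555157406322541967224480498878051187728668302173846804548532400207300337686273717455144859924084711848146057392692024579933471860914954159804421583386845237865090182453520151434625831298357143735775518841719198220222978505957073117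645863960890851125680674232933732034299772502537549761128420455777915368497322424586247054111309131624375548030989930303326343325453834293151980643277942545418864688900127028703345875715634834155210887509811609474212138202690084892451304319862449161360749761593512019709391588509541462013440144486130369479842349175255774990321152816197311804639054247727972021273807839412356438791567867721806476782085731156019579239816653835948140842762946791051506156451949595759791126414236060200735768028589318059743037022894660379163611418117397296301071187599334050650243654230782492400880066959131937238988575615532166820684713375931861028807872388546688221224393885117438104493779966115481680566284056751251070467057628271441423554322338868707427855230563643511726415937267901087841713679273706872242507176407995968841037560970948398999263486917839822741578110439115589586224937461587446779568039602096764013997832450648689453228269327319422432157712040885843927392159793403943435994092967152342418980150669467030208180939625892645728653190448495716719659504272665519101040048495787648773761451328735316932600027278081760581945173363992751053242872426832125796300116293645483773504638286600323531261551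826892391985260843994746522243839965566395218490966702137474817042325144560823016395033054963652511199427958191312982471594771999893110258243572827595085558538184919221950240320838181193645536310488822481764035203543745961595813468291670438724218153493060420022319289760517222604171293975937508060270977114318970308395125253384278408741564017308477480900349121707030700007270484146013992153917556877517125573837334992950242268874259860822711574462948785220395027031802481970955028881044407662705490951612019846318584588071084496126237392883221699126672432415768481513534761116037162478042690190226599532980989798154796778714338938905005087457304926847580373784588831429305797447889456837187798683021190420083277994820468330530651598845382042533029508910165026289775702255774775329761022739778877917687538139454840007386828940051168894640375628995705683691628881692652608337477430990478099210251348192629736726925210971391605354681044561824591843930238594945937995415333541075802199459435748315837205159291984551093717268587061335357191424381043245249268304513763298263117938116277278934331982988053495611888023142745022610829910905268547821338673371191233808598922093750959034296696825424123149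0436848089674978464220622100074608243979133589766059419233329114993387162136217232610635961580478825669678960035704155568668076645925935536789083262787461297687135631128903108214000891313783608505819908215936344528628237470036395490648571944359542662586321505864525193346004236979985543189927675528939923621573013737024049135451454135200314558180865320126547298629184909516110938075843451172595541210152395685207956705182485291941410769935135457573190961458042110614884078998796701876306608298559041924054792654871002633117930151631196778142708183395740448110072335521354825625828419778623918896667183486597820569164835977959842824120492767334491239974756996697057518016229884102566739969 >>> (1008 * i)) % (1 <<< 1008)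

def zz (t : ℕ) : ℕ := (24032095665672692457268447390168491126048728172990342962984177970703980582396578763185304484753386179725941467377279677432013990926118206129693877412114 >>> (4 * t)) % 16

def bt (v i : ℕ) : ℤ := if (g v).testBit i = true then 1 else 0

def chk : ℕ → ℕ → Bool := fun n =>
  Nat.rec (motive := fun _ => ℕ → Bool) (fun a => Nat.ble (a % 255) 72)
    (fun i r a => r a && r (a ^^^ rw' i)) n

theorem chk_true : chk 14 0 = true := by decide +kernel

def xr (p : ℕ → Bool) : ℕ → ℕ := fun n => Nat.rec 0 (fun i r => (if p i = true then rw' i else 0) ^^^ r) n

theorem chk_spec (p : ℕ → Bool) : ∀ n a, chk n a = true → (a ^^^ xr p n) % 255 ≤ 72 := by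
  intro n
  induction n with
  | zero =>
    intro a h
    have h' : Nat.ble (a % 255) 72 = true := h
    have : xr p 0 = 0 := rfl
    rw [this, Nat.xor_zero]
    exact Nat.le_of_ble_eq_true h'
  | succ n ih =>
    intro a h
    have h' : (chk n a && chk n (a ^^^ rw' n)) = true := h
    rw [Bool.and_eq_true] at h'
    have e : xr p (n + 1) = (if p n = true then rw' n else 0) ^^^ xr p n := rfl
    rw [e]
    by_cases hp : p n = true
    · rw [if_pos hp, ← Nat.xor_assoc]
      exact ih _ h'.2
    · rw [if_neg hp, Nat.zero_xor]
      exact ih _ h'.1

def sp (f : ℕ → Bool) (n : ℕ) : ℕ := ∑ u ∈ range n, (if f u = true then 2 ^ (8 * u) else 0)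

theorem sp_mod (f : ℕ → Bool) : ∀ n, sp f n ≡ ((range n).filter (fun u => f u = true)).card [MOD 255] := by
  intro n
  rw [card_filter]
  unfold sp
  induction n with
  | zero => rfl
  | succ n ih =>
    rw [sum_range_succ, sum_range_succ]
    refine Nat.ModEq.add ih ?_
    split_ifs
    · rw [pow_mul]
      have : 2 ^ 8 ≡ 1 [MOD 255] := by decide
      simpa using this.pow n
    · rfl

theorem sp_lt (f : ℕ → Bool) : ∀ n, sp f n < 2 ^ (8 * n) := by
  intro n
  induction n with
  | zero => simp [sp]
  | succ n ih =>
    unfold sp at ih ⊢
    rw [sum_range_succ, show 8 * (n + 1) = 8 * n + 8 by ring, pow_add]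
    split_ifs <;> omega

theorem sp_bit (f : ℕ → Bool) (j : ℕ) :
    ∀ n, (sp f n).testBit j = (decide (j % 8 = 0 ∧ j / 8 < n) && f (j / 8)) := by
  intro n
  induction n with
  | zero => simp [sp]
  | succ n ih =>
    have e : sp f (n + 1) = 2 ^ (8 * n) * (if f n = true then 1 else 0) + sp f n := by
      unfold sp
      rw [sum_range_succ]
      split_ifs <;> ring
    rw [e, Nat.testBit_two_pow_mul_add _ (sp_lt f n)]
    by_cases h : j < 8 * n
    · rw [if_pos h, ih]
      congr 1
      apply decide_eq_decide.2
      omega
    · rw [if_neg h]
      by_cases h2 : j = 8 * n
      · subst h2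
        have h3 : 8 * n / 8 = n := by omega
        rw [h3]
        cases f n <;> simp
      · have h3 : ¬ (j % 8 = 0 ∧ j / 8 < n + 1) := by omega
        rw [decide_eq_false h3, Bool.false_and]
        apply Nat.testBit_lt_two_pow
        have : 2 ^ 1 ≤ 2 ^ (j - 8 * n) := Nat.pow_le_pow_right (by norm_num) (by omega)
        split_ifs <;> omega

theorem sp_xor (f h : ℕ → Bool) (n : ℕ) : sp f n ^^^ sp h n = sp (fun u => xor (f u) (h u)) n := by
  apply Nat.eq_of_testBit_eq
  intro j
  rw [Nat.testBit_xor, sp_bit, sp_bit, sp_bit]
  cases decide (j % 8 = 0 ∧ j / 8 < n) <;> simp

theorem rw_sp : ∀ i < 14, rw' i = sp (fun u => (g u).testBit i) 126 := by decide +kernel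

theorem xr_sp (z : ℕ → ℤ) : ∀ n ≤ 14,
    xr (fun i => decide (Odd (z i))) n =
      sp (fun u => decide (Odd (∑ i ∈ range n, bt u i * z i))) 126 := by
  intro n
  induction n with
  | zero => intro _; simp [xr, sp]
  | succ n ih =>
    intro hn
    have e : xr (fun i => decide (Odd (z i))) (n + 1) =
      (if decide (Odd (z n)) = true then rw' n else 0) ^^^ xr (fun i => decide (Odd (z i))) n := rfl
    rw [e, ih (by omega)]
    by_cases h : Odd (z n)
    · rw [if_pos (decide_eq_true h), rw_sp n (by omega), sp_xor]
      congr 1
      funext u
      rw [sum_range_succ, Bool.eq_iff_iff, decide_eq_true_iff, Int.odd_add']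
      have h5 : ¬ Even (z n) := Int.not_even_iff_odd.2 h
      unfold bt
      generalize (∑ i ∈ range n, (if (g u).testBit i = true then (1 : ℤ) else 0) * z i) = w
      cases (g u).testBit n <;> by_cases h6 : Odd w <;>
        simp [h, h6, Int.not_even_iff_odd, ← Int.not_odd_iff_even]
    · rw [if_neg (by simpa using h), Nat.zero_xor]
      congr 1
      funext u
      apply decide_eq_decide.2
      rw [sum_range_succ, Int.odd_add]
      have h4 : Even (bt u n * z n) := (Int.not_odd_iff_even.1 h).mul_left _
      simp [h4]

theorem g_lt (v : ℕ) : g v < 2 ^ 14 := Nat.mod_lt _ (by norm_num)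

theorem bt_big (v i : ℕ) (hi : 14 ≤ i) : bt v i = 0 := by
  unfold bt
  rw [if_neg]
  rw [Nat.testBit_lt_two_pow (lt_of_lt_of_le (g_lt v) (Nat.pow_le_pow_right (by norm_num) hi))]
  simp

theorem bt_small : ∀ u < 14, ∀ i < 14, bt u i = if u = i then 1 else 0 := by decide +kernel

/-- weight bound -/
theorem weight (z : ℕ → ℤ) :
    ((range 126).filter (fun u => Odd (∑ i ∈ range 14, bt u i * z i))).card ≤ 72 := by
  have h := chk_spec (fun i => decide (Odd (z i))) 14 0 chk_true
  rw [Nat.zero_xor, xr_sp z 14 le_rfl, sp_mod] at h
  simp only [decide_eq_true_eq] at h
  have h2 := card_filter_le (range 126) (fun u => Odd (∑ i ∈ range 14, bt u i * z i))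
  rw [card_range] at h2
  omega

def nd : List ℕ → ℕ → Bool := fun l =>
  List.rec (motive := fun _ => ℕ → Bool) (fun _ => true)
    (fun x _ r m => !(m.testBit x) && r (m ||| (1 <<< x))) l

theorem nd_spec : ∀ (l : List ℕ) (m : ℕ), nd l m = true → l.Nodup ∧ ∀ x ∈ l, m.testBit x = false := by
  intro l
  induction l with
  | nil => intro m _; simp
  | cons x l ih =>
    intro m h
    have h' : (!(m.testBit x) && nd l (m ||| (1 <<< x))) = true := h
    rw [Bool.and_eq_true] at h'
    obtain ⟨h1, h2⟩ := ih _ h'.2
    have h3 : ∀ y ∈ l, m.testBit y = false ∧ y ≠ x := by
      intro y hy
      have := h2 y hy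
      rw [Nat.testBit_or, Bool.or_eq_false_iff, Nat.one_shiftLeft] at this
      refine ⟨this.1, ?_⟩
      intro e
      rw [e, Nat.testBit_two_pow_self] at this
      simp at this
    refine ⟨List.nodup_cons.2 ⟨fun hx => (h3 x hx).2 rfl, h1⟩, ?_⟩
    intro y hy
    rcases List.mem_cons.1 hy with rfl | hy
    · simpa using h'.1
    · exact (h3 y hy).1

def prs : List (ℕ × ℕ) := (List.range 128).flatMap (fun v => (List.range v).map (fun u => (u, v)))

theorem nd_true : nd (prs.map (fun p => g p.1 ^^^ g p.2)) 1 = true := by decide +kernel

theorem mem_prs (u v : ℕ) (h : u < v) (hv : v < 128) : (u, v) ∈ prs := by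
  unfold prs
  simp only [List.mem_flatMap, List.mem_range, List.mem_map]
  exact ⟨v, hv, u, h, rfl⟩

theorem xor_bit (u v : ℕ) (i : ℕ) : (g u ^^^ g v).testBit i = true ↔ Odd (bt u i + bt v i) := by
  unfold bt
  rw [Nat.testBit_xor]
  cases (g u).testBit i <;> cases (g v).testBit i <;> simp

theorem two_ne (T : Finset ℕ) (hT : T ⊆ range 128) (h2 : T.card = 2) :
    ∃ p ∈ prs, T = {p.1, p.2} ∧ ∀ i, (g p.1 ^^^ g p.2).testBit i = true ↔ Odd (∑ v ∈ T, bt v i) := by
  obtain ⟨a, b, hab, rfl⟩ := card_eq_two.1 h2
  have ha : a < 128 := mem_range.1 (hT (by simp))
  have hb : b < 128 := mem_range.1 (hT (by simp))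
  rcases lt_or_gt_of_ne hab with h | h
  · exact ⟨(a, b), mem_prs a b h hb, rfl, fun i => by rw [sum_pair hab]; exact xor_bit a b i⟩
  · exact ⟨(b, a), mem_prs b a h ha, pair_comm a b,
      fun i => by rw [sum_pair hab, add_comm]; exact xor_bit b a i⟩

theorem even_case (T : Finset ℕ) (hT : T ⊆ range 128) (h : T.card = 2 ∨ T.card = 4)
    (he : ∀ i, Even (∑ v ∈ T, bt v i)) : False := by
  obtain ⟨n1, n2⟩ := nd_spec _ _ nd_true
  rcases h with h | h
  · obtain ⟨p, hp, _, h3⟩ := two_ne T hT h
    have h4 : g p.1 ^^^ g p.2 = 0 := by
      apply Nat.eq_of_testBit_eq
      intro i
      have := (h3 i).not.2 (Int.not_odd_iff_even.2 (he i))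
      simpa using this
    have := n2 _ (List.mem_map.2 ⟨p, hp, rfl⟩)
    rw [h4] at this
    simp at this
  · obtain ⟨T1, hs, h1⟩ := exists_subset_card_eq (s := T) (n := 2) (by omega)
    have h2 : (T \ T1).card = 2 := by rw [card_sdiff_of_subset hs]; omega
    obtain ⟨p, hp, e1, h3⟩ := two_ne T1 (hs.trans hT) h1
    obtain ⟨q, hq, e2, h4⟩ := two_ne (T \ T1) (sdiff_subset.trans hT) h2
    have h5 : g p.1 ^^^ g p.2 = g q.1 ^^^ g q.2 := by
      apply Nat.eq_of_testBit_eq
      intro i
      have h6 := he i
      rw [← sum_sdiff hs, Int.even_add'] at h6
      rw [Bool.eq_iff_iff, h3, h4]
      exact h6.symm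
    have h7 : p = q := List.inj_on_of_nodup_map n1 hp hq h5
    have h8 : T1 = T \ T1 := by rw [e2, ← h7, ← e1]
    have h9 : p.1 ∈ T1 := by rw [e1]; simp
    have h10 := h9
    rw [h8] at h10
    exact (mem_sdiff.1 h10).2 h9

theorem g127 : g 127 = 0 := by decide +kernel

/-- dual distance at least five -/
theorem dual (T : Finset ℕ) (hT : T ⊆ range 127) (h1 : T.Nonempty) (h4 : T.card ≤ 4)
    (he : ∀ i, Even (∑ v ∈ T, bt v i)) : False := by
  have hp := card_pos.2 h1
  have hs : T ⊆ range 128 := hT.trans (range_subset_range.2 (by norm_num))
  by_cases h : T.card = 2 ∨ T.card = 4
  · exact even_case T hs h he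
  · have hn : 127 ∉ T := fun c => by simpa using hT c
    apply even_case (insert 127 T)
    · exact insert_subset (by simp) hs
    · rw [card_insert_of_notMem hn]; omega
    · intro i
      rw [sum_insert hn]
      have : bt 127 i = 0 := by simp [bt, g127]
      rw [this, zero_add]
      exact he i

theorem col_even : ∀ i < 14, (∑ u ∈ range 127, bt u i) % 2 = 0 := by decide +kernel

theorem zz_pos : ∀ u < 126, 0 < 2 * (zz u : ℤ) - ∑ i ∈ range 14, bt u i * (zz i : ℤ) := by
  decide +kernel

theorem zz_sum : ∑ u ∈ range 126, (2 * (zz u : ℤ) - ∑ i ∈ range 14, bt u i * (zz i : ℤ)) < 182 := by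
  decide +kernel

end Pool.Agent.H.MP_c7d842_co
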